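import Pool.Agent.T3h73.SN.BK.Stm

/-! # Bloch-Kato Selmer groups: the abstract part -/

set_option autoImplicit false
set_option linter.unusedSectionVars false

namespace Pool.Agent.T3h73.SN.BK

namespace TABS

section

variable {ℓ : ℕ} {G A : Type} [Group G] [CommGroup A] {ρ : G → A →* A} {T : Set A}

theorem fix_div {a b : A} (ha : ∀ σ, ρ σ a = a) (hb : ∀ σ, ρ σ b = b) :
    ∀ σ, ρ σ (a / b) = a / b := fun σ => by rw [map_div, ha σ, hb σ]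

theorem fix_mul {a b : A} (ha : ∀ σ, ρ σ a = a) (hb : ∀ σ, ρ σ b = b) :
    ∀ σ, ρ σ (a * b) = a * b := fun σ => by rw [map_mul, ha σ, hb σ]

theorem fix_pow {a : A} (ha : ∀ σ, ρ σ a = a) (n : ℕ) :
    ∀ σ, ρ σ (a ^ n) = a ^ n := fun σ => by rw [map_pow, ha σ]

theorem T_pow (h1 : (1 : A) ∈ T) (hT : ∀ t ∈ T, ∀ t' ∈ T, t * t' ∈ T) {t : A} (ht : t ∈ T)
    (n : ℕ) : t ^ n ∈ T := by
  induction n with
  | zero => rw [pow_zero]; exact h1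
  | succ n ih => rw [pow_succ]; exact hT _ ih _ ht

/-- every fixed element is an element of `T` times a power -/
theorem dec_pow (h1 : (1 : A) ∈ T) (hT : ∀ t ∈ T, ∀ t' ∈ T, t * t' ∈ T)
    (hD : ∀ P : A, (∀ σ, ρ σ P = P) → ∃ t ∈ T, ∃ Q : A, (∀ σ, ρ σ Q = Q) ∧ P = t * Q ^ ℓ) (m : ℕ) :
    ∀ P : A, (∀ σ, ρ σ P = P) → ∃ t ∈ T, ∃ Q : A, (∀ σ, ρ σ Q = Q) ∧ P = t * Q ^ ℓ ^ m := by
  induction m with
  | zero =>
    intro P hP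
    exact ⟨1, h1, P, hP, by rw [pow_zero, pow_one, one_mul]⟩
  | succ m ih =>
    intro P hP
    obtain ⟨t, ht, Q, hQ, h⟩ := ih P hP
    obtain ⟨t', ht', Q', hQ', h'⟩ := hD Q hQ
    refine ⟨t * t' ^ ℓ ^ m, hT _ ht _ (T_pow h1 hT ht' _), Q', hQ', ?_⟩
    rw [h, h', mul_pow, ← pow_mul, mul_assoc, pow_succ, mul_comm ℓ]

/-- sequences of roots up to `T` -/
theorem seqn (hD : ∀ P : A, (∀ σ, ρ σ P = P) → ∃ t ∈ T, ∃ Q : A, (∀ σ, ρ σ Q = Q) ∧ P = t * Q ^ ℓ)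
    (b : ℕ → A) (hb : ∀ n σ, ρ σ (b n) = b n) (a0 : A) (ha0 : ∀ σ, ρ σ a0 = a0) :
    ∃ (a t : ℕ → A), a 0 = a0 ∧ (∀ n σ, ρ σ (a n) = a n) ∧ (∀ n, t n ∈ T) ∧
      ∀ n, a n / b n = t n * a (n + 1) ^ ℓ := by
  choose! τ hτ R hR hPR using hD
  let a : ℕ → A := fun n => Nat.rec a0 (fun n x => R (x / b n)) n
  have e0 : a 0 = a0 := rfl
  have e1 : ∀ n, a (n + 1) = R (a n / b n) := fun n => rfl
  have hf : ∀ n σ, ρ σ (a n) = a n := by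
    intro n
    induction n with
    | zero => exact ha0
    | succ n ih =>
      rw [e1]
      exact hR _ (fix_div ih (hb n))
  refine ⟨a, fun n => τ (a n / b n), e0, hf, fun n => hτ _ (fix_div (hf n) (hb n)), fun n => ?_⟩
  rw [e1]
  exact hPR _ (fix_div (hf n) (hb n))

end

end TABS

theorem abs_main (ℓ : ℕ) (G A : Type) [Group G] [TopologicalSpace G]
    [CompactSpace G] [CommGroup A] (ρ : G → A →* A) (L : (G → A) → Prop)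
    (hsha : ∀ f : G → A, IsLocallyConstant f → (∀ σ τ, f (σ * τ) = f σ * ρ σ (f τ)) → L f →
      ∀ m : ℕ, (∀ σ, f σ ^ ℓ ^ m = 1) → ∃ P, ∀ σ, f σ = ρ σ P / P)
    (T : Set A) (hT : ∀ t ∈ T, ∀ t' ∈ T, t * t' ∈ T) (hTf : ∀ t ∈ T, (∀ σ, ρ σ t = t) ∧ t ^ ℓ = 1)
    (h1 : (1 : A) ∈ T)
    (hD : ∀ P : A, (∀ σ, ρ σ P = P) → ∃ t ∈ T, ∃ Q : A, (∀ σ, ρ σ Q = Q) ∧ P = t * Q ^ ℓ)
    (c : G → ℕ → A) (hc1 : ∀ n, IsLocallyConstant fun σ => c σ n)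
    (hc2 : ∀ σ n, c σ (n + 1) ^ ℓ = c σ n ∧ ∃ m : ℕ, c σ n ^ ℓ ^ m = 1)
    (hc3 : ∀ σ τ n, c (σ * τ) n = c σ n * ρ σ (c τ n)) (hc4 : ∀ n, L fun σ => c σ n) :
    ∃ x : ℕ → A, (∀ n, x (n + 1) ^ ℓ = x n ∧ ∃ m : ℕ, x n ^ ℓ ^ m = 1) ∧
      ∀ σ n, c σ n = ρ σ (x n) / x n := by
  classical
  have hexp : ∀ n, ∃ m : ℕ, ∀ σ, c σ n ^ ℓ ^ m = 1 := by
    intro n
    have hfin : (Set.range fun σ => c σ n).Finite := (hc1 n).range_finite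
    have h5 : ∀ y ∈ hfin.toFinset, ∃ m : ℕ, y ^ ℓ ^ m = 1 := by
      intro y hy
      obtain ⟨σ, rfl⟩ := hfin.mem_toFinset.1 hy
      exact (hc2 σ n).2
    choose! m hm using h5
    refine ⟨hfin.toFinset.sup m, fun σ => ?_⟩
    have h6 : c σ n ∈ hfin.toFinset := hfin.mem_toFinset.2 ⟨σ, rfl⟩
    obtain ⟨k, hk⟩ := Nat.exists_eq_add_of_le (Finset.le_sup (f := m) h6)
    rw [hk, pow_add, pow_mul, hm _ h6, one_pow]
  have key : ∀ n, ∃ P : A, ∀ σ, c σ n = ρ σ P / P := by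
    intro n
    obtain ⟨m, hm⟩ := hexp n
    exact hsha (fun σ => c σ n) (hc1 n) (fun σ τ => hc3 σ τ n) (hc4 n) m hm
  choose P hP using key
  -- ρ σ (P n) = c σ n * P n
  have hP' : ∀ n σ, ρ σ (P n) = c σ n * P n := by
    intro n σ
    rw [hP n σ, div_mul_cancel]
  obtain ⟨b, hb⟩ : ∃ b : ℕ → A, ∀ n, b n = P (n + 1) ^ ℓ / P n := ⟨_, fun n => rfl⟩
  have hbf : ∀ n σ, ρ σ (b n) = b n := by
    intro n σ
    rw [hb, map_div, map_pow, hP', hP', mul_pow, (hc2 σ n).1]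
    exact mul_div_mul_left_eq_div _ _ _
  obtain ⟨a', t, -, ha'f, htT, hrec⟩ := TABS.seqn hD b hbf 1 (fun σ => map_one _)
  obtain ⟨a, ha⟩ : ∃ a : ℕ → A, ∀ n, a n = a' n / t n := ⟨_, fun n => rfl⟩
  have haf : ∀ n σ, ρ σ (a n) = a n := by
    intro n
    rw [ha]
    exact TABS.fix_div (ha'f n) (hTf _ (htT n)).1
  have harec : ∀ n, a n = b n * a (n + 1) ^ ℓ := by
    intro n
    have e1 : a (n + 1) ^ ℓ = a' (n + 1) ^ ℓ := by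
      rw [ha, div_pow, (hTf _ (htT (n + 1))).2, div_one]
    rw [e1, ha, div_eq_iff_eq_mul]
    have e2 := hrec n
    rw [div_eq_iff_eq_mul] at e2
    rw [e2]
    ac_rfl
  obtain ⟨x', hx'⟩ : ∃ x' : ℕ → A, ∀ n, x' n = P n * a n := ⟨_, fun n => rfl⟩
  have hxr : ∀ n, x' (n + 1) ^ ℓ = x' n := by
    intro n
    have e2 : P n * b n = P (n + 1) ^ ℓ := by rw [hb, mul_div_cancel]
    rw [hx', hx', mul_pow, harec n, ← mul_assoc, e2]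
  have hxc : ∀ n σ, ρ σ (x' n) = c σ n * x' n := by
    intro n σ
    rw [hx', map_mul, hP', haf, mul_assoc]
  -- torsion
  obtain ⟨m, hm⟩ := hexp 0
  have hy : ∀ σ, ρ σ (x' 0 ^ ℓ ^ m) = x' 0 ^ ℓ ^ m := by
    intro σ
    rw [map_pow, hxc, mul_pow, hm, one_mul]
  obtain ⟨t₀, ht₀, w, hw, hyw⟩ := TABS.dec_pow h1 hT hD m _ hy
  obtain ⟨t₁, ht₁, q, hq, hwq⟩ := hD w hw
  obtain ⟨Q, s, hQ0, hQf, hsT, hQr⟩ := TABS.seqn hD (fun _ => 1) (fun n σ => map_one _) q hq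
  obtain ⟨z, hz⟩ : ∃ z : ℕ → A, ∀ n, z n = Q n ^ ℓ := ⟨_, fun n => rfl⟩
  have hzr : ∀ n, z (n + 1) ^ ℓ = z n := by
    intro n
    have e1 := hQr n
    rw [div_one] at e1
    rw [hz, hz, e1, mul_pow, (hTf _ (hsT n)).2, one_mul]
  have hzf : ∀ n σ, ρ σ (z n) = z n := by
    intro n
    rw [hz]
    exact TABS.fix_pow (hQf n) ℓ
  have hxz : (x' 0 / z 0) ^ ℓ ^ m ∈ T := by
    have e1 : (x' 0 / z 0) ^ ℓ ^ m = t₀ * t₁ ^ ℓ ^ m := by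
      rw [div_pow, hyw, hz, hQ0, hwq, mul_pow, ← mul_assoc, mul_div_assoc, div_self', mul_one]
    rw [e1]
    exact hT _ ht₀ _ (TABS.T_pow h1 hT ht₁ _)
  obtain ⟨x, hx⟩ : ∃ x : ℕ → A, ∀ n, x n = x' n / z n := ⟨_, fun n => rfl⟩
  have hr : ∀ n, x (n + 1) ^ ℓ = x n := by
    intro n
    rw [hx, hx, div_pow, hxr, hzr]
  have hr2 : ∀ n, x n ^ ℓ ^ n = x 0 := by
    intro n
    induction n with
    | zero => rw [pow_zero, pow_one]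
    | succ n ih => rw [pow_succ', pow_mul, hr, ih]
  refine ⟨x, fun n => ⟨hr n, n + (m + 1), ?_⟩, fun σ n => ?_⟩
  · rw [pow_add, pow_mul, hr2, pow_succ, pow_mul, hx]
    exact (hTf _ hxz).2
  · rw [hx, map_div, hxc, hzf, mul_div_assoc, mul_div_assoc, div_self', mul_one]

theorem t_ABS : S_ABS := by
  intro ℓ _ G A _ _ _ _ ρ L hsha T hT hTf h1 hD _ c hc1 hc2 hc3 hc4
  exact abs_main ℓ G A ρ L hsha T hT hTf h1 hD c hc1 hc2 hc3 hc4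

end Pool.Agent.T3h73.SN.BK
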