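import Pool.Agent.T3h73.SN.BK.Stm

/-! # The vanishing of the Bloch-Kato Selmer group -/

set_option autoImplicit false

open Polynomial IsDedekindDomain NumberField

namespace Pool.Agent.T3h73.SN.BK

open Pool.Agent.Y713.Jac (J mapJ Gal CoordRing coordMap)

theorem mapJ_comp {ℓ : ℕ} {K : Type} [Field K] {F : K[X]} {L L' L'' : Type} [Field L]
    [Algebra K L] [Field L'] [Algebra K L'] [Field L''] [Algebra K L''] (φ : L →ₐ[K] L')
    (ψ : L' →ₐ[K] L'') (P : J ℓ F L) : mapJ ℓ F ψ (mapJ ℓ F φ P) = mapJ ℓ F (ψ.comp φ) P := by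
  unfold mapJ
  rw [CommRing.Pic.mapRingHom_mapRingHom]
  congr 1
  have h : (coordMap ℓ F ψ).comp (coordMap ℓ F φ) = coordMap ℓ F (ψ.comp φ) := by
    apply AdjoinRoot.ringHom_ext
    · ext x
      · simp [coordMap, AdjoinRoot.map_of]
      · simp [coordMap, AdjoinRoot.map_of]
    · simp [coordMap, AdjoinRoot.map_root]
  rw [h]

theorem t_BKM (hABS : S_ABS) (hGDJ : S_GDJ) : S_BKM := by
  intro ℓ n hp K _ _ ζ hζ hn e he δ hδ hmin
  refine ⟨?_, hmin.2⟩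
  intro c hc hk
  obtain ⟨hinj, hdesc⟩ := hGDJ ℓ n hp K ζ hζ hn e he δ hδ
  obtain ⟨T₀, -, hT1, hT2, hT3⟩ := hmin.2
  have hfix : ∀ (σ : Gal K) (P : J ℓ (Def.crv e δ) K), mapJ ℓ (Def.crv e δ) σ.toAlgHom
      (mapJ ℓ (Def.crv e δ) (Algebra.ofId K (SeparableClosure K)) P) =
      mapJ ℓ (Def.crv e δ) (Algebra.ofId K (SeparableClosure K)) P := by
    intro σ P
    rw [mapJ_comp]
    congr 1
    congr 1
    exact AlgHom.ext fun x => σ.commutes x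
  obtain ⟨x, hx1, hx2⟩ := hABS ℓ hp (Gal K) (J ℓ (Def.crv e δ) (SeparableClosure K))
    (fun σ => mapJ ℓ (Def.crv e δ) σ.toAlgHom)
    (fun f => Pool.Agent.Y713.Jac.IsLocallyTrivial ℓ (Def.crv e δ) (𝓞 K) f)
    (fun f h1 h2 h3 m h4 => hmin.1 f m ⟨h1, h2⟩ h3 ⟨1, fun σ => by
      show f σ ^ ℓ ^ m = _
      rw [h4 σ, map_one, div_one]⟩)
    (mapJ ℓ (Def.crv e δ) (Algebra.ofId K (SeparableClosure K)) '' (T₀ : Set _))
    (by
      rintro _ ⟨t, ht, rfl⟩ _ ⟨t', ht', rfl⟩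
      exact ⟨t * t', T₀.mul_mem ht ht', map_mul _ _ _⟩)
    (by
      rintro _ ⟨t, ht, rfl⟩
      refine ⟨fun σ => hfix σ t, ?_⟩
      rw [← map_pow, hT1 t ht, map_one])
    ⟨1, T₀.one_mem, map_one _⟩
    (by
      intro P hP
      obtain ⟨P₀, rfl⟩ := hdesc P hP
      obtain ⟨t, ht, Q, rfl⟩ := hT2 P₀
      exact ⟨_, ⟨t, ht, rfl⟩, _, fun σ => hfix σ Q, by rw [map_mul, map_pow]⟩)
    (by
      intro P hP hPT
      obtain ⟨P₀, rfl⟩ := hdesc P hP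
      obtain ⟨t, ht, htP⟩ := hPT
      rw [← map_pow] at htP
      have h1 := hinj htP
      exact ⟨P₀, hT3 P₀ (h1 ▸ ht), rfl⟩)
    c (fun n => (hc.2 n).1) (fun σ n => hc.1 σ n) (fun σ τ n => (hc.2 n).2 σ τ)
    (fun n v => by
      obtain ⟨ι, Q, -, hQ⟩ := hk v
      exact ⟨ι, Q n, fun τ σ h => hQ n τ σ h⟩)
  exact ⟨x, hx1, hx2⟩

end Pool.Agent.T3h73.SN.BK
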