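import Pool.Agent.T3h73.SN.BK.Stm
import Pool.Agent.T3h73.SL.D.Dsc2
import Pool.Agent.Y713.SE.StmT

/-! # Galois descent for the Jacobian -/

set_option autoImplicit false

open Polynomial IsDedekindDomain NumberField

namespace Pool.Agent.T3h73.SN.BK

open Pool.Agent.Y713.Jac (J mapJ Gal)
open Pool.Agent.Y713.SE Pool.Agent.Y713.SE.Dat

theorem gdj_dat {ℓ n : ℕ} {K : Type} [Field K] (D : Dat ℓ n K) {L : Type} [Field L] [Algebra K L]
    [IsGalois K L] : Function.Injective (mapJ ℓ D.f (Algebra.ofId K L)) ∧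
    ∀ P : J ℓ D.f L, (∀ σ : L ≃ₐ[K] L, mapJ ℓ D.f σ.toAlgHom P = P) →
      ∃ Q : J ℓ D.f K, mapJ ℓ D.f (Algebra.ofId K L) Q = P := by
  constructor
  · rw [injective_iff_map_eq_one]
    intro P hP
    have h1 := D.Te_symm_nat (Algebra.ofId K L) P
    rw [hP, map_one] at h1
    have h2 := Pool.Agent.T3h73.SL.mC_inj D h1.symm
    exact (MulEquiv.map_eq_one_iff _).1 h2
  · intro P hP
    obtain ⟨c₀, hc₀⟩ := Pool.Agent.T3h73.SL.class_descent D (c := (D.Te L).symm P) (by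
      intro τ
      rw [← D.Te_symm_nat]
      congr 1
      exact hP τ)
    refine ⟨D.Th K c₀, ?_⟩
    rw [← D.Th_nat, hc₀]
    exact (D.Te L).apply_symm_apply P

theorem t_GDJ : S_GDJ := by
  intro ℓ n hp K _ _ ζ hζ hn e he δ hδ
  have hne : (ℓ : K) ≠ 0 := by exact_mod_cast hp.ne_zero
  obtain ⟨D, hDf⟩ : ∃ D : Dat ℓ n K, D.f = Def.crv e δ :=
    ⟨⟨hp, hne, ζ, hζ, δ, hδ, e, he, hn⟩, rfl⟩
  rw [← hDf]
  exact gdj_dat D

end Pool.Agent.T3h73.SN.BK
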