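import Pool.Agent.T3h73.SN.Def

/-!
# The Bloch-Kato Selmer group of `V_ℓ J` for the Jacobian `J` of `y ^ ℓ = F(x)`: the definitions
-/

set_option autoImplicit false

open Polynomial IsDedekindDomain NumberField

namespace Pool.Agent.T3h73.SN.BK

open Pool.Agent.Y713.Jac (J mapJ Gal IsCocycle)

section

variable (ℓ : ℕ) {K : Type} [Field K] (F : K[X])

/-- The elements of `V_ℓ J = T_ℓ J ⊗ ℚ_ℓ`: the sequences of points `x_n ∈ J(K^sep)` of `ℓ`-power order
with `x_(n + 1) ^ ℓ = x_n` (the group law of `J` is written as a product). -/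
def IsV (x : ℕ → J ℓ F (SeparableClosure K)) : Prop := ∀ n, x (n + 1) ^ ℓ = x n ∧
  ∃ m : ℕ, x n ^ ℓ ^ m = 1

/-- The continuous cocycles of the absolute Galois group with values in `V_ℓ J`. -/
def VCocycle (c : Gal K → ℕ → J ℓ F (SeparableClosure K)) : Prop :=
  (∀ σ, IsV ℓ F (c σ)) ∧ ∀ n, IsCocycle ℓ F fun σ => c σ n

/-- The coboundaries with values in `V_ℓ J`. -/
def VCoboundary (c : Gal K → ℕ → J ℓ F (SeparableClosure K)) : Prop :=
  ∃ x : ℕ → J ℓ F (SeparableClosure K), IsV ℓ F x ∧ ∀ σ n, c σ n = mapJ ℓ F σ.toAlgHom (x n) / x n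

/-- For an embedding `ι : K^sep → E^sep` the restriction of the function `f` to `Gal(E^sep / E)` is the
coboundary of `Q ∈ J(E^sep)`: `f(τ|K^sep) = τ Q / Q`. -/
def SplitBy (E : Type) [Field E] [Algebra K E] (ι : SeparableClosure K →ₐ[K] SeparableClosure E)
    (f : Gal K → J ℓ F (SeparableClosure K)) (Q : J ℓ F (SeparableClosure E)) : Prop :=
  ∀ (τ : Gal E) (σ : Gal K), (∀ x : SeparableClosure K, τ (ι x) = ι (σ x)) →
    mapJ ℓ F ι (f σ) = mapJ ℓ F (τ.toAlgHom.restrictScalars K) Q / Q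

/-- The restriction of the class of `c` to `E` is in the image of `J(E) ⊗ ℚ_ℓ → H ^ 1 (E, V_ℓ J)`: there are
an embedding `ι : K^sep → E^sep` and points `Q_n ∈ J(E^sep)` with `Q_(n + 1) ^ ℓ = Q_n` and
`c(τ)_n = τ Q_n / Q_n` for all `τ ∈ Gal(E^sep / E)`. -/
def Kummer (E : Type) [Field E] [Algebra K E] (c : Gal K → ℕ → J ℓ F (SeparableClosure K)) : Prop :=
  ∃ (ι : SeparableClosure K →ₐ[K] SeparableClosure E) (Q : ℕ → J ℓ F (SeparableClosure E)),
    (∀ n, Q (n + 1) ^ ℓ = Q n) ∧ ∀ n : ℕ, SplitBy ℓ F E ι (fun σ => c σ n) (Q n)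

end

/-- The Bloch-Kato Selmer group `H ^ 1_f (K, V_ℓ J)` is zero: every continuous cocycle with values in
`V_ℓ J` whose class is in the image of `J(K_v) ⊗ ℚ_ℓ` at all the finite places `v` is a coboundary. -/
def BKZero (ℓ : ℕ) (K : Type) [Field K] [NumberField K] (F : K[X]) : Prop :=
  ∀ c : Gal K → ℕ → J ℓ F (SeparableClosure K), VCocycle ℓ F c →
    (∀ v : HeightOneSpectrum (𝓞 K), Kummer ℓ F (v.adicCompletion K) c) → VCoboundary ℓ F c

/-- Both sides of the conjecture are zero: `H ^ 1_f (K, V_ℓ J) = 0`, and there is a finite subgroup `T` of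
`J(K)` (of order `ℓ ^ (deg F - 1)`) such that multiplication by `ℓ` is bijective on `J(K) / T`; by the
theorem of Mordell and Weil this means that `J(K)` is finite, so that `J(K) ⊗ ℚ_ℓ = 0`. -/
def BothZero (ℓ : ℕ) (K : Type) [Field K] [NumberField K] (F : K[X]) : Prop :=
  BKZero ℓ K F ∧
  ∃ T : Subgroup (J ℓ F K), Nat.card T = ℓ ^ (F.natDegree - 1) ∧
    (∀ P ∈ T, P ^ ℓ = 1) ∧ (∀ P : J ℓ F K, ∃ t ∈ T, ∃ Q, P = t * Q ^ ℓ) ∧
    ∀ P : J ℓ F K, P ^ ℓ ∈ T → P ∈ T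

end Pool.Agent.T3h73.SN.BK
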