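import Pool.Agent.T3h73.SN.All
import Pool.Agent.T3h73.SN.BK.T_ABS
import Pool.Agent.T3h73.SN.BK.T_GDJ
import Pool.Agent.T3h73.SN.BK.T_BKM

/-! The Bloch-Kato Selmer groups of the twists: the final assembly -/

set_option autoImplicit false
set_option linter.all false

open NumberField IsDedekindDomain Filter Topology

namespace Pool.Agent.T3h73.SN.BK

open Pool.Agent.T3h73.SD.Def

theorem csum_mono {ℓ : ℕ} {K : Type} [Field K] [NumberField K] {Q Q' : Kˣ → Prop} {s : ℝ}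
    (hs : Summable (fun c : Kˣ ⧸ (powMonoidHom ℓ : Kˣ →* Kˣ).range =>
      ht ℓ (Quotient.out c) ^ (-s))) (h : ∀ δ, Q δ → Q' δ) : csum ℓ Q s ≤ csum ℓ Q' s := by
  classical
  have h0 : ∀ c : Kˣ ⧸ (powMonoidHom ℓ : Kˣ →* Kˣ).range, 0 ≤ ht ℓ (Quotient.out c) ^ (-s) := by
    intro c
    refine Real.rpow_nonneg ?_ _
    unfold ht
    exact finprod_nonneg fun v => by positivity
  have hsum : ∀ Q : Kˣ → Prop, Summable (fun c : Kˣ ⧸ (powMonoidHom ℓ : Kˣ →* Kˣ).range =>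
      if ∀ δ : Kˣ, (δ : Kˣ ⧸ (powMonoidHom ℓ : Kˣ →* Kˣ).range) = c → Q δ then
        ht ℓ (Quotient.out c) ^ (-s) else 0) := by
    intro Q
    refine Summable.of_nonneg_of_le (fun c => ?_) (fun c => ?_) hs
    · split_ifs
      · exact h0 c
      · exact le_rfl
    · split_ifs
      · exact le_rfl
      · exact h0 c
  unfold csum
  refine Summable.tsum_le_tsum (fun c => ?_) (hsum Q) (hsum Q')
  by_cases h1 : ∀ δ : Kˣ, (δ : Kˣ ⧸ (powMonoidHom ℓ : Kˣ →* Kˣ).range) = c → Q δ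
  · rw [if_pos h1, if_pos fun δ hδ => h δ (h1 δ hδ)]
  · rw [if_neg h1]
    split_ifs
    · exact h0 c
    · exact le_rfl

theorem final {ℓ n : ℕ} (hℓ : ℓ.Prime) (h2 : ℓ ≠ 2) (hn : ¬ ℓ ∣ n)
    (hn2 : 2 ≤ n) {K : Type} [Field K] [NumberField K] {ζ : K} (hζ : IsPrimitiveRoot ζ ℓ)
    (e : Fin n → K) (he : Function.Injective e) (hind : SN.Def.Indep ℓ e)
    (S₀ : Finset (HeightOneSpectrum (𝓞 K))) (η : Kˣ) (A : Finset ℕ) (hA : A.Nonempty)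
    (hA' : ∀ a ∈ A, 1 ≤ a ∧ a < ℓ) :
    (∀ s : ℝ, 1 < s → Summable (fun c : Kˣ ⧸ (powMonoidHom ℓ : Kˣ →* Kˣ).range =>
      ht ℓ (Quotient.out c) ^ (-s))) ∧
    Tendsto (fun s : ℝ => csum ℓ (Near ℓ S₀ η) s) (𝓝[>] 1) atTop ∧
    ∀ ε : ℝ, 0 < ε → ∀ᶠ s : ℝ in 𝓝[>] 1,
      (1 - A.card * (1 - SD.kap ℓ) - ε) * csum ℓ (Near ℓ S₀ η) s ≤
        csum ℓ (fun δ => Near ℓ S₀ η δ ∧
          ∀ a ∈ A, BothZero ℓ K (SN.Def.crv e ((δ : K) ^ a))) s := by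
  have h := SN.final hℓ h2 hn hn2 hζ e he hind S₀ η A hA hA'
  refine ⟨h.1, h.2.1, fun ε hε => ?_⟩
  have h3 : ∀ᶠ s : ℝ in 𝓝[>] (1 : ℝ), s ∈ Set.Ioi (1 : ℝ) := self_mem_nhdsWithin
  filter_upwards [h.2.2 ε hε, h3] with s hs hs1
  refine hs.trans (csum_mono (h.1 s hs1) fun δ hδ => ⟨hδ.1, fun a ha => ?_⟩)
  exact t_BKM t_ABS t_GDJ ℓ n hℓ K ζ hζ hn e he _ (pow_ne_zero _ δ.ne_zero) (hδ.2 a ha)

end Pool.Agent.T3h73.SN.BK
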