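import Pool.Agent.T3h73.SN.BK.Def

/-! # Bloch-Kato Selmer groups: the statements -/

set_option autoImplicit false

open Polynomial IsDedekindDomain NumberField

namespace Pool.Agent.T3h73.SN.BK

open Pool.Agent.Y713.Jac (J mapJ Gal)

/-- ABS: the abstract part (compare `Pool.Agent.N844.QF.abs_h1f`, which has `ℓ = 2` and `T = 0`) -/
def S_ABS : Prop := ∀ (ℓ : ℕ) (_ : ℓ.Prime) (G A : Type) [Group G] [TopologicalSpace G]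
  [CompactSpace G] [CommGroup A] (ρ : G → A →* A) (L : (G → A) → Prop)
  (_ : ∀ f : G → A, IsLocallyConstant f → (∀ σ τ, f (σ * τ) = f σ * ρ σ (f τ)) → L f →
      ∀ m : ℕ, (∀ σ, f σ ^ ℓ ^ m = 1) → ∃ P, ∀ σ, f σ = ρ σ P / P)
  (T : Set A) (_ : ∀ t ∈ T, ∀ t' ∈ T, t * t' ∈ T) (_ : ∀ t ∈ T, (∀ σ, ρ σ t = t) ∧ t ^ ℓ = 1)
  (_ : (1 : A) ∈ T)
  (_ : ∀ P : A, (∀ σ, ρ σ P = P) → ∃ t ∈ T, ∃ Q : A, (∀ σ, ρ σ Q = Q) ∧ P = t * Q ^ ℓ)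
  (_ : ∀ P : A, (∀ σ, ρ σ P = P) → P ^ ℓ ∈ T → P ∈ T)
  (c : G → ℕ → A) (_ : ∀ n, IsLocallyConstant fun σ => c σ n)
  (_ : ∀ σ n, c σ (n + 1) ^ ℓ = c σ n ∧ ∃ m : ℕ, c σ n ^ ℓ ^ m = 1)
  (_ : ∀ σ τ n, c (σ * τ) n = c σ n * ρ σ (c τ n)) (_ : ∀ n, L fun σ => c σ n),
  ∃ x : ℕ → A, (∀ n, x (n + 1) ^ ℓ = x n ∧ ∃ m : ℕ, x n ^ ℓ ^ m = 1) ∧ ∀ σ n, c σ n = ρ σ (x n) / x n

/-- GDJ: Galois descent for the Jacobian of `y ^ ℓ = δ ∏ (x - e i)` -/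
def S_GDJ : Prop := ∀ (ℓ n : ℕ) (_ : ℓ.Prime) (K : Type) [Field K] [CharZero K] (ζ : K)
  (_ : IsPrimitiveRoot ζ ℓ) (_ : ¬ ℓ ∣ n) (e : Fin n → K) (_ : Function.Injective e) (δ : K)
  (_ : δ ≠ 0),
  Function.Injective (mapJ ℓ (Def.crv e δ) (Algebra.ofId K (SeparableClosure K))) ∧
  ∀ P : J ℓ (Def.crv e δ) (SeparableClosure K),
    (∀ σ : Gal K, mapJ ℓ (Def.crv e δ) σ.toAlgHom P = P) →
    ∃ Q : J ℓ (Def.crv e δ) K, mapJ ℓ (Def.crv e δ) (Algebra.ofId K (SeparableClosure K)) Q = P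

/-- BKM: the vanishing of the Bloch-Kato Selmer group -/
def S_BKM : Prop := ∀ (ℓ n : ℕ) (_ : ℓ.Prime) (K : Type) [Field K] [NumberField K] (ζ : K)
  (_ : IsPrimitiveRoot ζ ℓ) (_ : ¬ ℓ ∣ n) (e : Fin n → K) (_ : Function.Injective e) (δ : K)
  (_ : δ ≠ 0), Def.Minimal ℓ K (Def.crv e δ) → BothZero ℓ K (Def.crv e δ)

end Pool.Agent.T3h73.SN.BK
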