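import Pool.Agent.T3h73.SN.BK.Fin

/-!
# The Bloch-Kato conjecture for most twists of a superelliptic curve with rational branch points

Let `ℓ` be an odd prime, `K` any number field which contains the `ℓ`-th roots of unity, `n ≥ 2` prime to `ℓ`
and `e_1, ..., e_n` distinct elements of `K` with independent differences (`Indep`; no condition for
`n = 2`, and satisfied by most `(e_1, ..., e_n)`). For `δ ∈ K^*` let `C(δ)` be the superelliptic curve
`y ^ ℓ = δ (x - e_1) ⋯ (x - e_n)` and `J(δ)` its Jacobian, of dimension `(n - 1) (ℓ - 1) / 2`.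

For the motive `M = h ^ 1(J)(1) = h ^ 1(C)(1)` over `K` and the prime `ℓ` the conjecture says that the Abel-Jacobi
map `J(K) ⊗ ℚ_ℓ → H ^ 1_f (K, V_ℓ J)` onto the Bloch-Kato Selmer group is bijective; here it is known that the
local conditions of `H ^ 1_f` are the images of `J(K_v) ⊗ ℚ_ℓ` (Bloch and Kato).

Theorem. Among ALL classes `δ ∈ K^* / K^{*ℓ}` (with prescribed class in the completions at a finite set of
primes), ordered by the height `∏ N(v) ^ (v(δ) mod ℓ)`, the proportion, in the sense of the logarithmic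
(Dirichlet) density, of the classes for which both `J(δ)(K) ⊗ ℚ_ℓ` and `H ^ 1_f (K, V_ℓ J(δ))` are zero,
so that the conjecture is true, is at least `κ = ∏_{i ≥ 1} (1 + ℓ ^ (-i))⁻¹` (`0.639...` for `ℓ = 3`,
`0.793...` for `ℓ = 5`, tending to `1` for `ℓ → ∞`); the same for several powers `δ ^ a` at the same time.

Proof. By `Pool.Agent.T3h73.SN.final` (the theorem `MP_a43263_nt.SuperellipticTwistDensity`: descent with
`1 - ζ`, the reciprocity law of degree `ℓ`, moments of the orders of the Selmer groups over the twists, a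
large sieve) for this proportion of the twists the group `J(K)` is up to the torsion generated by
the branch points uniquely `ℓ`-divisible and the `ℓ`-primary part of `Ш(J/K)` is zero. For a
cocycle with values in `V_ℓ J` which satisfies the local conditions all the components are then cocycles
with values in `J` with locally trivial classes of `ℓ`-power order (after multiplication by the order of
the torsion), so they are coboundaries; a compactness argument and Galois descent for the Jacobian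
(`S_ABS`, `S_GDJ`) show that the cocycle is a coboundary in `V_ℓ J`.

The definitions are in `Pool.Agent.T3h73.SN.BK.Def` (`V_ℓ J`, its cocycles, the Selmer group, `BothZero`),
`Pool.Agent.T3h73.SN.Def` (`Indep`, `crv`), `Pool.Agent.T3h73.SD.Def` (the height and the sums) and
`Pool.Agent.Y713.SE.Stm` (the Jacobian). The parts for `V_ℓ J` were formalised by helpers 46 and 55.
-/

set_option autoImplicit false

open IsDedekindDomain NumberField Filter Topology

namespace Pool.Agent.Results.MP_009fd8_ag.SuperellipticBlochKato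

open Pool.Agent.T3h73.SD.Def

/-- Let `ℓ` be an odd prime, `K` a number field with a primitive `ℓ`-th root of unity, `n ≥ 2` prime to `ℓ`,
`e_1, ..., e_n` distinct elements of `K` with independent differences (`Indep`), `S₀` a finite set of
primes of `K`, `η ∈ K^*` and `A` a nonempty subset of `{1, ..., ℓ - 1}`. The sum `∑ ht(δ) ^ (-s)` over the
classes `δ ∈ K^* / K^{*ℓ}` converges for `s > 1`; its part `csum ℓ (Near ℓ S₀ η) s` over the classes with
`δ / η` an `ℓ`-th power in `K_v` for all `v ∈ S₀` tends to infinity for `s → 1`; and for all `ε > 0`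
the `δ` in this family such that for all `a ∈ A` the Jacobian `J` of `y ^ ℓ = δ ^ a ∏ (x - e_i)` has
`H ^ 1_f (K, V_ℓ J) = 0` and `J(K) ⊗ ℚ_ℓ = 0` (`BothZero`) contribute at least the
proportion `1 - |A| (1 - κ) - ε` of this sum, for all `s > 1` close enough to `1`, with
`κ = ∏_{i ≥ 1} (1 + ℓ ^ (-i))⁻¹ ≥ 1 - ℓ / (ℓ ^ 2 - 1)`. -/
theorem result (ℓ : ℕ) (hℓ : ℓ.Prime) (h2 : ℓ ≠ 2) (n : ℕ) (hn : ¬ ℓ ∣ n) (hn2 : 2 ≤ n)
    (K : Type) [Field K] [NumberField K] (ζ : K) (hζ : IsPrimitiveRoot ζ ℓ)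
    (e : Fin n → K) (he : Function.Injective e) (hind : Pool.Agent.T3h73.SN.Def.Indep ℓ e)
    (S₀ : Finset (HeightOneSpectrum (𝓞 K))) (η : Kˣ)
    (A : Finset ℕ) (hA : A.Nonempty) (hA' : ∀ a ∈ A, 1 ≤ a ∧ a < ℓ) :
    (∀ s : ℝ, 1 < s → Summable (fun c : Kˣ ⧸ (powMonoidHom ℓ : Kˣ →* Kˣ).range =>
      ht ℓ (Quotient.out c) ^ (-s))) ∧
    Tendsto (fun s : ℝ => csum ℓ (Near ℓ S₀ η) s) (𝓝[>] 1) atTop ∧
    1 - (ℓ : ℝ) / ((ℓ : ℝ) ^ 2 - 1) ≤ ∏' i : ℕ, (1 + ((ℓ : ℝ) ^ (i + 1))⁻¹)⁻¹ ∧
    ∀ ε : ℝ, 0 < ε → ∀ᶠ s : ℝ in 𝓝[>] 1,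
      (1 - A.card * (1 - ∏' i : ℕ, (1 + ((ℓ : ℝ) ^ (i + 1))⁻¹)⁻¹) - ε) * csum ℓ (Near ℓ S₀ η) s ≤
        csum ℓ (fun δ => Near ℓ S₀ η δ ∧ ∀ a ∈ A,
          Pool.Agent.T3h73.SN.BK.BothZero ℓ K (Pool.Agent.T3h73.SN.Def.crv e ((δ : K) ^ a))) s :=
  let h := Pool.Agent.T3h73.SN.BK.final hℓ h2 hn hn2 hζ e he hind S₀ η A hA hA'
  ⟨h.1, h.2.1, Pool.Agent.T3h73.SD.Uni.kap_ge hℓ.two_le, h.2.2⟩

end Pool.Agent.Results.MP_009fd8_ag.SuperellipticBlochKato
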